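import Pool.Agent.Lib_helper11.TD.Defs

/-!
# Block TD2: roots in the residue field and roots fixed by Frobenius
-/

set_option autoImplicit false

namespace Pool.Agent.TD

open NumberField Polynomial Pool.Agent.TT

/-- a nonzero algebraic integer divides a positive integer -/
theorem td2_nat {x : 𝓞 Qbar} (hx : x ≠ 0) : ∃ m : ℕ, m ≠ 0 ∧ x ∣ (m : 𝓞 Qbar) := by
  have hint : IsIntegral ℤ x := NumberField.RingOfIntegers.isIntegral x
  obtain ⟨p, hp, hpx⟩ := hint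
  obtain ⟨q, hq, hnd⟩ := Polynomial.exists_eq_pow_rootMultiplicity_mul_and_not_dvd p hp.ne_zero 0
  have hqx : q.eval₂ (algebraMap ℤ (𝓞 Qbar)) x = 0 := by
    rw [hq, eval₂_mul, eval₂_pow, eval₂_sub, eval₂_X, eval₂_C, map_zero, sub_zero] at hpx
    exact (mul_eq_zero.mp hpx).resolve_left (pow_ne_zero _ hx)
  have hq0 : q.coeff 0 ≠ 0 := by
    intro h0
    apply hnd
    rw [C_0, sub_zero]
    exact Polynomial.X_dvd_iff.mpr h0
  have h1 : x ∣ algebraMap ℤ (𝓞 Qbar) (q.coeff 0) := by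
    rw [← Polynomial.divX_mul_X_add q, eval₂_add, eval₂_mul, eval₂_X, eval₂_C] at hqx
    refine ⟨-(q.divX.eval₂ (algebraMap ℤ (𝓞 Qbar)) x), ?_⟩
    linear_combination hqx
  refine ⟨(q.coeff 0).natAbs, Int.natAbs_ne_zero.mpr hq0, ?_⟩
  have h2 : x ∣ ((q.coeff 0 : ℤ) : 𝓞 Qbar) := by simpa using h1
  rcases Int.natAbs_eq (q.coeff 0) with h | h
  · have h3 : (((q.coeff 0).natAbs : ℕ) : 𝓞 Qbar) = ((q.coeff 0 : ℤ) : 𝓞 Qbar) := by
      rw [h]
      simp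
    rw [h3]
    exact h2
  · have h3 : (((q.coeff 0).natAbs : ℕ) : 𝓞 Qbar) = -((q.coeff 0 : ℤ) : 𝓞 Qbar) := by
      rw [h]
      simp
    rw [h3]
    exact h2.neg_right

/-- a common field -/
theorem td2_embed {K : Type} [Field K] [NumberField K] [Algebra K Qbar] (𝔓 : Ideal (𝓞 Qbar))
    (h𝔓 : 𝔓.IsPrime) (F : Type) [Field F] [Fintype F] (φ : 𝓞 K →+* F)
    (hφ : ∀ x : 𝓞 K, φ x = 0 ↔ algebraMap (𝓞 K) (𝓞 Qbar) x ∈ 𝔓) :
    ∃ (Ω : Type) (_ : Field Ω) (π : 𝓞 Qbar →+* Ω) (ψ : F →+* Ω), (∀ x, π x = 0 ↔ x ∈ 𝔓) ∧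
      ∀ x, ψ (φ x) = π (algebraMap (𝓞 K) (𝓞 Qbar) x) := by
  have := h𝔓
  obtain ⟨π, hπ⟩ : ∃ π : 𝓞 Qbar →+* AlgebraicClosure (FractionRing (𝓞 Qbar ⧸ 𝔓)),
      ∀ x, π x = 0 ↔ x ∈ 𝔓 := by
    refine ⟨(algebraMap (FractionRing (𝓞 Qbar ⧸ 𝔓)) _).comp
      ((algebraMap (𝓞 Qbar ⧸ 𝔓) (FractionRing (𝓞 Qbar ⧸ 𝔓))).comp (Ideal.Quotient.mk 𝔓)), ?_⟩
    intro x
    rw [RingHom.comp_apply, RingHom.comp_apply]
    rw [map_eq_zero_iff _ (FaithfulSMul.algebraMap_injective _ _),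
      map_eq_zero_iff _ (IsFractionRing.injective (𝓞 Qbar ⧸ 𝔓) (FractionRing (𝓞 Qbar ⧸ 𝔓)))]
    exact Ideal.Quotient.eq_zero_iff_mem
  have hker : ∀ x ∈ RingHom.ker φ, (π.comp (algebraMap (𝓞 K) (𝓞 Qbar))) x = 0 := by
    intro x hx
    rw [RingHom.comp_apply, hπ]
    exact (hφ x).mp ((RingHom.mem_ker).mp hx)
  let a1 : Algebra (𝓞 K ⧸ RingHom.ker φ) F := (RingHom.kerLift φ).toAlgebra
  let a2 : Algebra (𝓞 K ⧸ RingHom.ker φ) (AlgebraicClosure (FractionRing (𝓞 Qbar ⧸ 𝔓))) :=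
    (Ideal.Quotient.lift (RingHom.ker φ) (π.comp (algebraMap (𝓞 K) (𝓞 Qbar))) hker).toAlgebra
  have f1 : FaithfulSMul (𝓞 K ⧸ RingHom.ker φ) F :=
    (faithfulSMul_iff_algebraMap_injective _ _).mpr (RingHom.kerLift_injective φ)
  have f2 : FaithfulSMul (𝓞 K ⧸ RingHom.ker φ)
      (AlgebraicClosure (FractionRing (𝓞 Qbar ⧸ 𝔓))) := by
    rw [faithfulSMul_iff_algebraMap_injective]
    change Function.Injective
      (Ideal.Quotient.lift (RingHom.ker φ) (π.comp (algebraMap (𝓞 K) (𝓞 Qbar))) hker)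
    apply RingHom.lift_injective_of_ker_le_ideal
    intro x hx
    rw [RingHom.mem_ker] at hx ⊢
    rw [RingHom.comp_apply, hπ] at hx
    exact (hφ x).mpr hx
  have dom : IsDomain (𝓞 K ⧸ RingHom.ker φ) :=
    (RingHom.kerLift_injective φ).isDomain (RingHom.kerLift φ)
  have : Algebra.IsAlgebraic (𝓞 K ⧸ RingHom.ker φ) F := by
    have : Module.Finite (𝓞 K ⧸ RingHom.ker φ) F := Module.Finite.of_finite
    infer_instance
  refine ⟨AlgebraicClosure (FractionRing (𝓞 Qbar ⧸ 𝔓)), inferInstance, π,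
    ((IsAlgClosed.lift : F →ₐ[𝓞 K ⧸ RingHom.ker φ]
      AlgebraicClosure (FractionRing (𝓞 Qbar ⧸ 𝔓))) : F →+* _), hπ, ?_⟩
  intro x
  have h := (IsAlgClosed.lift : F →ₐ[𝓞 K ⧸ RingHom.ker φ]
      AlgebraicClosure (FractionRing (𝓞 Qbar ⧸ 𝔓))).commutes (Ideal.Quotient.mk _ x)
  exact h

/-- the scaled roots are integral -/
theorem td2_int {K : Type} [Field K] [NumberField K] [Algebra K Qbar] (P : (𝓞 K)[X]) {β : Qbar}
    (hβ : β ∈ rts P) : ∃ z : 𝓞 Qbar,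
      (z : Qbar) = algebraMap K Qbar (algebraMap (𝓞 K) K P.leadingCoeff) * β := by
  have h1 : Polynomial.aeval β P = 0 := by
    have h2 : P.eval₂ ((algebraMap K Qbar).comp (algebraMap (𝓞 K) K)) β = 0 := hβ
    rw [Polynomial.aeval_def, IsScalarTower.algebraMap_eq (𝓞 K) K Qbar]
    exact h2
  have h3 : IsIntegral (𝓞 K) (P.leadingCoeff • β) := isIntegral_leadingCoeff_smul P β h1
  have h4 : IsIntegral ℤ (P.leadingCoeff • β) := isIntegral_trans _ h3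
  obtain ⟨z, hz⟩ : ∃ z : 𝓞 Qbar, (z : Qbar) = P.leadingCoeff • β := ⟨⟨_, h4⟩, rfl⟩
  refine ⟨z, ?_⟩
  rw [hz, Algebra.smul_def, IsScalarTower.algebraMap_apply (𝓞 K) K Qbar]

/-- the scaled roots are roots of the scaled polynomial -/
theorem td2_scale {K : Type} [Field K] [NumberField K] [Algebra K Qbar] (P : (𝓞 K)[X]) {β : Qbar}
    (hβ : β ∈ rts P) {z : 𝓞 Qbar}
    (hz : (z : Qbar) = algebraMap K Qbar (algebraMap (𝓞 K) K P.leadingCoeff) * β) :
    (scaleRoots P P.leadingCoeff).eval₂ (algebraMap (𝓞 K) (𝓞 Qbar)) z = 0 := by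
  have hinj : Function.Injective (algebraMap (𝓞 Qbar) Qbar) := FaithfulSMul.algebraMap_injective _ _
  apply hinj
  rw [map_zero, Polynomial.hom_eval₂]
  have e : (algebraMap (𝓞 Qbar) Qbar).comp (algebraMap (𝓞 K) (𝓞 Qbar)) =
      (algebraMap K Qbar).comp (algebraMap (𝓞 K) K) := by
    rw [← IsScalarTower.algebraMap_eq, ← IsScalarTower.algebraMap_eq]
  rw [e]
  have e2 : algebraMap (𝓞 Qbar) Qbar z =
      ((algebraMap K Qbar).comp (algebraMap (𝓞 K) K)) P.leadingCoeff * β := hz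
  rw [e2, scaleRoots_eval₂_mul]
  have h2 : P.eval₂ ((algebraMap K Qbar).comp (algebraMap (𝓞 K) K)) β = 0 := hβ
  rw [h2, mul_zero]

/-- the number of roots -/
theorem td2_card {K : Type} [Field K] [NumberField K] [Algebra K Qbar] (P : (𝓞 K)[X])
    (hP : (P.map (algebraMap (𝓞 K) K)).Separable) :
    ∃ S : Finset Qbar, (∀ β, β ∈ S ↔ β ∈ rts P) ∧ S.card = P.natDegree := by
  classical
  obtain ⟨ι, hι⟩ : ∃ ι : 𝓞 K →+* Qbar, ι = (algebraMap K Qbar).comp (algebraMap (𝓞 K) K) :=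
    ⟨_, rfl⟩
  have hinj : Function.Injective ι := by
    rw [hι]
    exact (algebraMap K Qbar).injective.comp (FaithfulSMul.algebraMap_injective (𝓞 K) K)
  have hsep : (P.map ι).Separable := by
    rw [hι, ← Polynomial.map_map]
    exact hP.map
  have hne : P.map ι ≠ 0 := hsep.ne_zero
  refine ⟨(P.map ι).roots.toFinset, ?_, ?_⟩
  · intro β
    rw [Multiset.mem_toFinset, Polynomial.mem_roots hne, Polynomial.IsRoot.def,
      Polynomial.eval_map, hι]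
    rfl
  · rw [Multiset.toFinset_card_of_nodup (Polynomial.nodup_roots hsep),
      ← Polynomial.natDegree_map_eq_of_injective hinj P]
    exact (IsAlgClosed.splits (P.map ι)).natDegree_eq_card_roots.symm

/-- TD2: roots in the residue field and roots fixed by Frobenius. -/
theorem td_roots {K : Type} [Field K] [NumberField K] [Algebra K Qbar] (P : (𝓞 K)[X])
    (hP : (P.map (algebraMap (𝓞 K) K)).Separable) (hP0 : 0 < P.natDegree) :
    ∃ C : Finset ℕ, ∀ p : ℕ, p.Prime → p ∉ C → ∀ 𝔓 : Ideal (𝓞 Qbar), 𝔓.IsPrime →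
      (p : 𝓞 Qbar) ∈ 𝔓 → ∀ (F : Type) [Field F] [Fintype F] (φ : 𝓞 K →+* F),
      (∀ x : 𝓞 K, φ x = 0 ↔ algebraMap (𝓞 K) (𝓞 Qbar) x ∈ 𝔓) →
      ∀ σ : Qbar ≃ₐ[K] Qbar, (∀ x y : 𝓞 Qbar, (y : Qbar) = σ x → y - x ^ Fintype.card F ∈ 𝔓) →
        φ P.leadingCoeff ≠ 0 ∧
          Nat.card {t : F // P.eval₂ φ t = 0} = Nat.card {β : rts P // σ β = β} := by
  classical
  obtain ⟨S, hS, hScard⟩ := td2_card P hP
  obtain ⟨c, hc⟩ : ∃ c : 𝓞 K, c = P.leadingCoeff := ⟨_, rfl⟩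
  have hc0 : c ≠ 0 := by
    rw [hc]
    intro h
    rw [Polynomial.leadingCoeff_eq_zero] at h
    rw [h] at hP0
    simp at hP0
  have hιinj : Function.Injective ((algebraMap K Qbar).comp (algebraMap (𝓞 K) K)) :=
    (algebraMap K Qbar).injective.comp (FaithfulSMul.algebraMap_injective (𝓞 K) K)
  have hιc : algebraMap K Qbar (algebraMap (𝓞 K) K c) ≠ 0 := by
    intro h
    apply hc0
    apply hιinj
    rw [map_zero]
    exact h
  -- the scaled roots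
  have hZex : ∀ β : Qbar, ∃ z : 𝓞 Qbar, β ∈ rts P →
      (z : Qbar) = algebraMap K Qbar (algebraMap (𝓞 K) K c) * β := by
    intro β
    by_cases hβ : β ∈ rts P
    · obtain ⟨z, hz⟩ := td2_int P hβ
      rw [← hc] at hz
      exact ⟨z, fun _ => hz⟩
    · exact ⟨0, fun h => absurd h hβ⟩
  choose Z hZ using hZex
  have hcoe : Function.Injective (algebraMap (𝓞 Qbar) Qbar) := FaithfulSMul.algebraMap_injective _ _
  have hZinj : ∀ β ∈ S, ∀ γ ∈ S, Z β = Z γ → β = γ := by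
    intro β hβ γ hγ h
    have h1 := hZ β ((hS β).mp hβ)
    have h2 := hZ γ ((hS γ).mp hγ)
    rw [h] at h1
    exact mul_left_cancel₀ hιc (h1.symm.trans h2)
  obtain ⟨d, hd⟩ : ∃ d : 𝓞 Qbar, d = algebraMap (𝓞 K) (𝓞 Qbar) c *
      ∏ q ∈ S.offDiag, (Z q.1 - Z q.2) := ⟨_, rfl⟩
  have hcQ : algebraMap (𝓞 K) (𝓞 Qbar) c ≠ 0 := by
    intro h
    apply hιc
    have h2 := congrArg (algebraMap (𝓞 Qbar) Qbar) h
    rw [map_zero, ← IsScalarTower.algebraMap_apply, IsScalarTower.algebraMap_apply (𝓞 K) K Qbar]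
      at h2
    exact h2
  have hd0 : d ≠ 0 := by
    rw [hd]
    apply mul_ne_zero hcQ
    rw [Finset.prod_ne_zero_iff]
    intro q hq
    rw [Finset.mem_offDiag] at hq
    exact sub_ne_zero.mpr (fun h => hq.2.2 (hZinj _ hq.1 _ hq.2.1 h))
  obtain ⟨m, hm, hdm⟩ := td2_nat hd0
  refine ⟨m.primeFactors, ?_⟩
  intro p hp hpC 𝔓 h𝔓 hp𝔓 F _ _ φ hφ σ hσ
  have hd𝔓 : d ∉ 𝔓 := by
    intro h
    have hm𝔓 : (m : 𝓞 Qbar) ∈ 𝔓 := Ideal.mem_of_dvd _ hdm h
    have hcop : Nat.Coprime p m := by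
      rw [Nat.Prime.coprime_iff_not_dvd hp]
      intro hpm
      exact hpC (Nat.mem_primeFactors.mpr ⟨hp, hpm, hm⟩)
    have hcop' : IsCoprime (p : ℤ) (m : ℤ) := Nat.isCoprime_iff_coprime.mpr hcop
    obtain ⟨a, b, hab⟩ := hcop'
    have h1 : (1 : 𝓞 Qbar) ∈ 𝔓 := by
      have h2 : (a : 𝓞 Qbar) * (p : 𝓞 Qbar) + (b : 𝓞 Qbar) * (m : 𝓞 Qbar) = 1 := by
        exact_mod_cast congrArg (Int.cast : ℤ → 𝓞 Qbar) hab
      rw [← h2]
      exact 𝔓.add_mem (𝔓.mul_mem_left _ hp𝔓) (𝔓.mul_mem_left _ hm𝔓)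
    exact h𝔓.ne_top ((Ideal.eq_top_iff_one 𝔓).mpr h1)
  have hc𝔓 : algebraMap (𝓞 K) (𝓞 Qbar) c ∉ 𝔓 := by
    intro h
    apply hd𝔓
    rw [hd]
    exact 𝔓.mul_mem_right _ h
  have hZ𝔓 : ∀ β ∈ S, ∀ γ ∈ S, β ≠ γ → Z β - Z γ ∉ 𝔓 := by
    intro β hβ γ hγ hne h
    apply hd𝔓
    rw [hd]
    apply 𝔓.mul_mem_left
    have hmem : ((β, γ) : Qbar × Qbar) ∈ S.offDiag := by
      rw [Finset.mem_offDiag]
      exact ⟨hβ, hγ, hne⟩
    have hdvd := Finset.dvd_prod_of_mem (fun q : Qbar × Qbar => Z q.1 - Z q.2) hmem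
    exact Ideal.mem_of_dvd _ hdvd h
  have hφc : φ c ≠ 0 := fun h => hc𝔓 ((hφ c).mp h)
  rw [← hc]
  refine ⟨hφc, ?_⟩
  obtain ⟨Ω, _, π, ψ, hπ, hψ⟩ := td2_embed 𝔓 h𝔓 F φ hφ
  -- the scaled polynomial over Ω
  obtain ⟨H, hH⟩ : ∃ H : Polynomial Ω, H = (scaleRoots P c).map (π.comp (algebraMap (𝓞 K) (𝓞 Qbar))) :=
    ⟨_, rfl⟩
  have hHne : H ≠ 0 := by
    intro h
    have h1 : H.coeff P.natDegree = 0 := by rw [h, coeff_zero]
    rw [hH, coeff_map, coeff_scaleRoots_natDegree, ← hc, RingHom.comp_apply, hπ] at h1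
    exact hc𝔓 h1
  have hHdeg : H.natDegree ≤ P.natDegree := by
    rw [hH]
    exact (natDegree_map_le).trans (le_of_eq (natDegree_scaleRoots P c))
  have hHZ : ∀ β ∈ S, H.IsRoot (π (Z β)) := by
    intro β hβ
    have hβ' := (hS β).mp hβ
    have h1 := td2_scale P hβ' (z := Z β) (by rw [hZ β hβ', hc])
    rw [← hc] at h1
    have h2 := congrArg π h1
    rw [map_zero, Polynomial.hom_eval₂] at h2
    rw [Polynomial.IsRoot.def, hH, Polynomial.eval_map]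
    exact h2
  have hπinj : Set.InjOn (fun β => π (Z β)) (S : Set Qbar) := by
    intro β hβ γ hγ h
    by_contra hne
    apply hZ𝔓 β hβ γ hγ hne
    rw [← hπ, map_sub, sub_eq_zero]
    exact h
  have hall : S.image (fun β => π (Z β)) = H.roots.toFinset := by
    apply Finset.eq_of_subset_of_card_le
    · intro x hx
      rw [Finset.mem_image] at hx
      obtain ⟨β, hβ, rfl⟩ := hx
      rw [Multiset.mem_toFinset, Polynomial.mem_roots hHne]
      exact hHZ β hβ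
    · rw [Finset.card_image_of_injOn hπinj, hScard]
      exact (Multiset.toFinset_card_le _).trans ((Polynomial.card_roots' H).trans hHdeg)
  -- roots in F
  have hF : ∀ t : F, P.eval₂ φ t = 0 ↔ ∃ β ∈ S, π (Z β) = ψ (φ c * t) := by
    intro t
    have h1 : (scaleRoots P c).eval₂ φ (φ c * t) = φ c ^ P.natDegree * P.eval₂ φ t :=
      scaleRoots_eval₂_mul φ t c
    have h2 : P.eval₂ φ t = 0 ↔ (scaleRoots P c).eval₂ φ (φ c * t) = 0 := by
      rw [h1, mul_eq_zero]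
      constructor
      · intro h
        exact Or.inr h
      · intro h
        exact h.resolve_left (pow_ne_zero _ hφc)
    have h3 : (scaleRoots P c).eval₂ φ (φ c * t) = 0 ↔ H.IsRoot (ψ (φ c * t)) := by
      have h4 : ψ ((scaleRoots P c).eval₂ φ (φ c * t)) = H.eval (ψ (φ c * t)) := by
        rw [Polynomial.hom_eval₂, hH, Polynomial.eval_map]
        congr 1
        ext x
        exact hψ x
      rw [Polynomial.IsRoot.def, ← h4]
      exact (map_eq_zero_iff ψ ψ.injective).symm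
    rw [h2, h3, ← Polynomial.mem_roots hHne, ← Multiset.mem_toFinset, ← hall, Finset.mem_image]
  -- the fixed points of the power map
  have hfix : ∀ x : Ω, x ^ Fintype.card F = x ↔ ∃ s : F, ψ s = x := by
    have hq : 1 < Fintype.card F := Fintype.one_lt_card
    obtain ⟨G, hG⟩ : ∃ G : Polynomial Ω, G = X ^ Fintype.card F - X := ⟨_, rfl⟩
    have hGne : G ≠ 0 := by
      rw [hG]
      exact FiniteField.X_pow_card_sub_X_ne_zero Ω hq
    have hGdeg : G.natDegree = Fintype.card F := by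
      rw [hG]
      exact FiniteField.X_pow_card_sub_X_natDegree_eq Ω hq
    have hroot : ∀ x : Ω, x ^ Fintype.card F = x ↔ x ∈ G.roots.toFinset := by
      intro x
      rw [Multiset.mem_toFinset, Polynomial.mem_roots hGne, hG, Polynomial.IsRoot.def, eval_sub,
        eval_pow, eval_X, sub_eq_zero]
    have hsub : (Finset.univ : Finset F).image ψ = G.roots.toFinset := by
      apply Finset.eq_of_subset_of_card_le
      · intro x hx
        rw [Finset.mem_image] at hx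
        obtain ⟨s, -, rfl⟩ := hx
        rw [← hroot, ← map_pow, FiniteField.pow_card]
      · rw [Finset.card_image_of_injective _ ψ.injective, Finset.card_univ]
        exact (Multiset.toFinset_card_le _).trans ((Polynomial.card_roots' G).trans hGdeg.le)
    intro x
    rw [hroot, ← hsub, Finset.mem_image]
    simp
  -- Frobenius
  have hσS : ∀ β ∈ S, σ β ∈ S := by
    intro β hβ
    rw [hS] at hβ ⊢
    have h1 : P.eval₂ ((algebraMap K Qbar).comp (algebraMap (𝓞 K) K)) β = 0 := hβ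
    change P.eval₂ ((algebraMap K Qbar).comp (algebraMap (𝓞 K) K)) (σ β) = 0
    have h2 := congrArg (σ : Qbar →+* Qbar) h1
    rw [map_zero, Polynomial.hom_eval₂] at h2
    rw [← h2]
    congr 1
    ext x
    simp
  have hfrob : ∀ β ∈ S, π (Z (σ β)) = π (Z β) ^ Fintype.card F := by
    intro β hβ
    have h1 : ((Z (σ β) : 𝓞 Qbar) : Qbar) = σ (Z β) := by
      rw [hZ _ ((hS _).mp (hσS β hβ)), hZ _ ((hS _).mp hβ), map_mul, AlgEquiv.commutes]
    have h2 := hσ _ _ h1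
    rw [← hπ, map_sub, map_pow, sub_eq_zero] at h2
    exact h2
  have hiff : ∀ β ∈ S, σ β = β ↔ ∃ s : F, ψ s = π (Z β) := by
    intro β hβ
    rw [← hfix, ← hfrob β hβ]
    constructor
    · intro h
      rw [h]
    · intro h
      exact hπinj (hσS β hβ) hβ h
  -- the bijection
  symm
  have key : ∀ β : {β : rts P // σ β = β}, ∃ t : {t : F // P.eval₂ φ t = 0},
      ψ (φ c * t) = π (Z β) := by
    rintro ⟨⟨β, hβ⟩, hfixβ⟩
    have hβS := (hS β).mpr hβ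
    obtain ⟨s, hs⟩ := (hiff β hβS).mp hfixβ
    refine ⟨⟨s / φ c, ?_⟩, ?_⟩
    · rw [hF]
      refine ⟨β, hβS, ?_⟩
      rw [mul_div_cancel₀ s hφc, hs]
    · change ψ (φ c * (s / φ c)) = π (Z β)
      rw [mul_div_cancel₀ s hφc, hs]
  choose T hT using key
  apply Nat.card_congr
  refine Equiv.ofBijective T ⟨?_, ?_⟩
  · rintro ⟨⟨β, hβ⟩, hfixβ⟩ ⟨⟨γ, hγ⟩, hfixγ⟩ h
    have h1 := hT ⟨⟨β, hβ⟩, hfixβ⟩
    have h2 := hT ⟨⟨γ, hγ⟩, hfixγ⟩
    rw [h, h2] at h1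
    have h3 : γ = β := hπinj ((hS γ).mpr hγ) ((hS β).mpr hβ) h1
    subst h3
    rfl
  · rintro ⟨t, ht⟩
    obtain ⟨β, hβ, hβt⟩ := (hF t).mp ht
    have hfixβ : σ β = β := (hiff β hβ).mpr ⟨φ c * t, hβt.symm⟩
    refine ⟨⟨⟨β, (hS β).mp hβ⟩, hfixβ⟩, ?_⟩
    have h1 := hT ⟨⟨β, (hS β).mp hβ⟩, hfixβ⟩
    apply Subtype.ext
    have h2 : ψ (φ c * (T ⟨⟨β, (hS β).mp hβ⟩, hfixβ⟩ : F)) = ψ (φ c * t) := h1.trans hβt
    exact mul_left_cancel₀ hφc (ψ.injective h2)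

end Pool.Agent.TD
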